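import Pool.Agent.Y843.AC.Top

/-!
# Progressions and recurrence in dense sets of integers
-/

set_option autoImplicit false

open Finset

namespace Pool.Agent.Q34.SGA

open Pool.Agent.Y843.AC Pool.Agent.Y843.HS

/-- dense sets of integers have many progressions with a narrow difference -/
theorem sz (k : ℕ) (hk : 1 ≤ k) (δ : ℝ) (hδ : 0 < δ) : ∃ c : ℝ, 0 < c ∧ ∃ B X₀ : ℕ, ∀ X A D : ℕ,
    X₀ ≤ X → Real.log X ^ B ≤ D → D ≤ X → ∀ S : Finset ℕ, S ⊆ Ioc A (A + X) →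
    δ * X ≤ (S.card : ℝ) → c * X * D ≤ ((APs k D S).card : ℝ) := by
  obtain ⟨c, hc, B, X₀, h⟩ := cnt_all 0 k 1 δ hk one_pos hδ
  refine ⟨c, hc, B, X₀, fun X A D hX hD hDX S hS hcard => ?_⟩
  have hV : VV (fun _ => ∅) 0 ⌊(X : ℝ) ^ (1 : ℝ)⌋₊ = 1 := by
    unfold VV
    simp
  have h1 := h X A D hX hD hDX (fun _ => ∅) (fun p hp _ => ⟨by simp, by simpa using hp.pos, by simp⟩) S hS
    (fun n _ p _ _ => by simp) (by rw [hV, mul_one]; exact hcard)
  rw [hV, one_pow, mul_one] at h1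
  exact h1

/-- recurrence: some difference of a large set of shifts is popular -/
theorem recur (δ : ℝ) (hδ : 0 < δ) (M : ℕ) (hM : 4 ≤ δ * M) (X A : ℕ) (S : Finset ℕ)
    (hS : S ⊆ Ioc A (A + X)) (hcard : δ * X ≤ (S.card : ℝ)) (E : Finset ℕ) (hE : E.card = M)
    (hEX : ∀ e ∈ E, e ≤ X) (hX : 1 ≤ X) :
    ∃ e ∈ E, ∃ e' ∈ E, e < e' ∧
      δ ^ 2 / 8 * X ≤ ((S.filter (fun n => n + (e' - e) ∈ S)).card : ℝ) := by
  classical
  by_contra hcon
  push Not at hcon
  have hXr : (1 : ℝ) ≤ X := by exact_mod_cast hX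
  have hMr : (0 : ℝ) < M := by
    rcases Nat.eq_zero_or_pos M with h | h
    · rw [h] at hM
      norm_num at hM
    · exact_mod_cast h
  set s : ℝ := (S.card : ℝ) with hs
  have hs0 : 0 < s := lt_of_lt_of_le (by positivity) hcard
  set T : ℕ → Finset ℕ := fun e => S.image (fun n => n + (X - e)) with hT
  set W : Finset ℕ := Ioc A (A + 2 * X) with hW
  have hTW : ∀ e ∈ E, T e ⊆ W := by
    intro e he m hm
    rw [hT] at hm
    simp only [mem_image] at hm
    obtain ⟨n, hn, rfl⟩ := hm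
    have h1 := mem_Ioc.1 (hS hn)
    rw [hW, mem_Ioc]
    omega
  have hTc : ∀ e ∈ E, (T e).card = S.card := by
    intro e _
    exact card_image_of_injective _ (add_left_injective _)
  have hint : ∀ e ∈ E, ∀ e' ∈ E, e < e' → ((T e ∩ T e').card : ℝ) ≤ δ ^ 2 / 8 * X := by
    intro e he e' he' hlt
    have h1 : T e ∩ T e' ⊆ (S.filter (fun n => n + (e' - e) ∈ S)).image (fun n => n + (X - e)) := by
      intro m hm
      rw [mem_inter] at hm
      obtain ⟨h1, h2⟩ := hm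
      rw [hT] at h1 h2
      simp only [mem_image] at h1 h2
      obtain ⟨n, hn, hn1⟩ := h1
      obtain ⟨n', hn', hn1'⟩ := h2
      rw [mem_image]
      refine ⟨n, ?_, hn1⟩
      rw [mem_filter]
      refine ⟨hn, ?_⟩
      have h3 := hEX e he
      have h4 := hEX e' he'
      have h5 : n + (e' - e) = n' := by omega
      rw [h5]
      exact hn'
    have h2 := card_le_card h1
    have h3 : (T e ∩ T e').card ≤ (S.filter (fun n => n + (e' - e) ∈ S)).card :=
      h2.trans card_image_le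
    have h4 : ((T e ∩ T e').card : ℝ) ≤ ((S.filter (fun n => n + (e' - e) ∈ S)).card : ℝ) := by
      exact_mod_cast h3
    exact h4.trans (hcon e he e' he' hlt).le
  set f : ℕ → ℝ := fun m => ∑ e ∈ E, if m ∈ T e then (1 : ℝ) else 0 with hf
  have hsum : ∑ m ∈ W, f m = M * s := by
    rw [hf, sum_comm]
    have : ∀ e ∈ E, ∑ m ∈ W, (if m ∈ T e then (1 : ℝ) else 0) = s := by
      intro e he
      rw [sum_ite_mem, inter_eq_right.2 (hTW e he), sum_const, nsmul_eq_mul, mul_one, hTc e he]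
    rw [sum_congr rfl this, sum_const, hE, nsmul_eq_mul]
  have hsq : ∑ m ∈ W, f m ^ 2 = ∑ e ∈ E, ∑ e' ∈ E, ((T e ∩ T e').card : ℝ) := by
    have h1 : ∀ m ∈ W, f m ^ 2 = ∑ e ∈ E, ∑ e' ∈ E, if m ∈ T e ∩ T e' then (1 : ℝ) else 0 := by
      intro m _
      rw [hf, sq, sum_mul_sum]
      refine sum_congr rfl fun e _ => sum_congr rfl fun e' _ => ?_
      by_cases h1 : m ∈ T e <;> by_cases h2 : m ∈ T e' <;> simp [h1, h2, mem_inter]
    rw [sum_congr rfl h1, sum_comm]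
    refine sum_congr rfl fun e he => ?_
    rw [sum_comm]
    refine sum_congr rfl fun e' _ => ?_
    rw [sum_ite_mem, inter_eq_right.2 (inter_subset_left.trans (hTW e he)), sum_const,
      nsmul_eq_mul, mul_one]
  have hle : ∑ e ∈ E, ∑ e' ∈ E, ((T e ∩ T e').card : ℝ) ≤ M * s + M ^ 2 * (δ ^ 2 / 8 * X) := by
    have h1 : ∀ e ∈ E, ∑ e' ∈ E, ((T e ∩ T e').card : ℝ) ≤ s + M * (δ ^ 2 / 8 * X) := by
      intro e he
      rw [← add_sum_erase E _ he]
      have h2 : ((T e ∩ T e).card : ℝ) = s := by rw [inter_self, hTc e he]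
      have h3 : ∑ e' ∈ E.erase e, ((T e ∩ T e').card : ℝ) ≤ ∑ _e' ∈ E.erase e, (δ ^ 2 / 8 * X) := by
        refine sum_le_sum fun e' he' => ?_
        obtain ⟨hne, he'⟩ := mem_erase.1 he'
        rcases lt_or_gt_of_ne hne with h | h
        · rw [inter_comm]
          exact hint e' he' e he h
        · exact hint e he e' he' h
      have h4 : ∑ _e' ∈ E.erase e, (δ ^ 2 / 8 * (X : ℝ)) ≤ M * (δ ^ 2 / 8 * X) := by
        rw [sum_const, nsmul_eq_mul]
        have : ((E.erase e).card : ℝ) ≤ M := by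
          rw [← hE]
          exact_mod_cast card_le_card (erase_subset _ _)
        exact mul_le_mul_of_nonneg_right this (by positivity)
      rw [h2]
      linarith
    calc ∑ e ∈ E, ∑ e' ∈ E, ((T e ∩ T e').card : ℝ) ≤ ∑ _e ∈ E, (s + M * (δ ^ 2 / 8 * X)) :=
          sum_le_sum h1
      _ = M * s + M ^ 2 * (δ ^ 2 / 8 * X) := by
          rw [sum_const, hE, nsmul_eq_mul]; ring
  have hCS : (∑ m ∈ W, f m) ^ 2 ≤ (W.card : ℝ) * ∑ m ∈ W, f m ^ 2 := sq_sum_le_card_mul_sum_sq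
  have hWc : (W.card : ℝ) = 2 * X := by
    rw [hW, Nat.card_Ioc]
    push_cast
    rw [Nat.cast_sub (by omega)]
    push_cast
    ring
  rw [hsum, hsq, hWc] at hCS
  have h1 : (M * s) ^ 2 ≤ 2 * X * (M * s + M ^ 2 * (δ ^ 2 / 8 * X)) :=
    hCS.trans (mul_le_mul_of_nonneg_left hle (by positivity))
  -- `M² s² ≤ 2 X M s + M² δ² X² / 2`, `X δ ≤ s`, `4 ≤ δ M`
  have h2 : M ^ 2 * (δ ^ 2 / 8 * X) * (2 * X) ≤ M ^ 2 * s ^ 2 / 4 := by
    have : (δ * X) ^ 2 ≤ s ^ 2 := pow_le_pow_left₀ (by positivity) hcard 2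
    have h3 : (M : ℝ) ^ 2 * (δ * X) ^ 2 ≤ M ^ 2 * s ^ 2 := mul_le_mul_of_nonneg_left this (by positivity)
    nlinarith
  have h3 : 2 * X * (M * s) ≤ M ^ 2 * s ^ 2 / 2 * (1 : ℝ) := by
    have h4 : 4 * (X : ℝ) ≤ M * s := by
      calc 4 * (X : ℝ) ≤ δ * M * X := mul_le_mul_of_nonneg_right hM (by positivity)
        _ = M * (δ * X) := by ring
        _ ≤ M * s := mul_le_mul_of_nonneg_left hcard hMr.le
    have h5 : 0 < (M : ℝ) * s := by positivity
    nlinarith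
  have h6 : 0 < (M : ℝ) ^ 2 * s ^ 2 := by positivity
  nlinarith

end Pool.Agent.Q34.SGA
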