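import Pool.Agent.Q34.SGA.Comb
import Pool.Agent.W192.PP.Fin2
import Pool.Agent.TH299.PG.FinQ

/-!
# Progressions of small gaps between the ordinates of zeta zeros
-/

set_option autoImplicit false

open Filter Topology Set

namespace Pool.Agent.Q34.SGA

open SG (ord NZ)
open Pool.Agent.Y843.AC

/-- the number of zeros in short intervals -/
theorem NZ_short : ∃ C : ℝ, 1 ≤ C ∧ ∀ T : ℝ, 4 ≤ T → ∀ a b : ℝ, T - 1 ≤ a → a + 1 ≤ b → b ≤ 2 * T →
    (NZ b : ℝ) ≤ NZ a + C * (b - a) * Real.log T := by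
  obtain ⟨C, hC, hz⟩ := H370.zcount H370.good_zeta
  refine ⟨4 * C + 1, by linarith, fun T hT a b ha hab hb => ?_⟩
  have hlog : 0 ≤ Real.log T := Real.log_nonneg (by linarith)
  have hlog2 : ∀ x : ℝ, 3 ≤ x → x ≤ 3 * T → Real.log x ≤ 2 * Real.log T := by
    intro x hx hx2
    have h1 : Real.log x ≤ Real.log (T * T) := Real.log_le_log (by linarith) (by nlinarith)
    rw [Real.log_mul (by linarith) (by linarith)] at h1
    linarith
  have key : ∀ k : ℕ, a + k ≤ 2 * T + 1 → (NZ (a + k) : ℝ) ≤ NZ a + k * (2 * C * Real.log T) := by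
    intro k
    induction k with
    | zero => intro _; simp
    | succ k ih =>
      intro hk
      push_cast at hk ⊢
      have h0 : (0 : ℝ) ≤ k := Nat.cast_nonneg k
      have h1 := SG.NZ_le_add (a + k) (a + (k + 1)) (by linarith)
      have h2 : H370.NN riemannZeta (a + k) (a + (k + 1)) ≤
          H370.NN riemannZeta (a + (k + 1) - 1 - 1 + 1) (a + (k + 1) - 1 + 1) := by
        refine H370.NN_mono H370.good_zeta ?_ ?_ ?_ <;> linarith
      have h2' : H370.NN riemannZeta (a + k) (a + (k + 1)) ≤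
          H370.NN riemannZeta (a + k - 1) (a + k + 1) := by
        refine H370.NN_mono H370.good_zeta ?_ ?_ ?_ <;> linarith
      have h3 := hz (a + k) (by linarith)
      have h4 := hlog2 (a + k) (by linarith) (by linarith)
      have h5 : (H370.NN riemannZeta (a + k) (a + (k + 1)) : ℝ) ≤ C * (2 * Real.log T) := by
        have : (H370.NN riemannZeta (a + k) (a + (k + 1)) : ℝ) ≤
          (H370.NN riemannZeta (a + k - 1) (a + k + 1) : ℝ) := by exact_mod_cast h2'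
        refine this.trans (h3.trans ?_)
        exact mul_le_mul_of_nonneg_left h4 hC.le
      have h6 : (NZ (a + (k + 1)) : ℝ) ≤ NZ (a + k) + H370.NN riemannZeta (a + k) (a + (k + 1)) := by
        exact_mod_cast h1
      have h7 := ih (by linarith)
      linarith
  set k : ℕ := ⌈b - a⌉₊ with hk
  have hk1 : b - a ≤ k := Nat.le_ceil _
  have hk2 : (k : ℝ) < b - a + 1 := Nat.ceil_lt_add_one (by linarith)
  have h1 := key k (by linarith)
  have h2 : (NZ b : ℝ) ≤ NZ (a + k) := by exact_mod_cast SG.NZ_mono (by linarith : b ≤ a + k)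
  have h3 : (k : ℝ) * (2 * C * Real.log T) ≤ (2 * (b - a)) * (2 * C * Real.log T) :=
    mul_le_mul_of_nonneg_right (by linarith) (by positivity)
  have h4 : 0 ≤ (b - a) * Real.log T := mul_nonneg (by linarith) hlog
  calc (NZ b : ℝ) ≤ NZ a + (2 * (b - a)) * (2 * C * Real.log T) := by linarith
    _ = NZ a + 4 * C * (b - a) * Real.log T := by ring
    _ ≤ NZ a + (4 * C + 1) * (b - a) * Real.log T := by nlinarith

/-- the indices of the gaps in `[t0, t0 + H]` which are smaller than `c` mean spacings -/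
def SS (c T t0 H : ℝ) : Set ℕ :=
  {n : ℕ | 1 ≤ n ∧ t0 ≤ ord n ∧ ord (n + 1) ≤ t0 + H ∧
    ord (n + 1) - ord n < c * (2 * Real.pi / Real.log T)}

/-- the parameters for which a positive proportion of the gaps is known to be small -/
def Par (θ c : ℝ) : Prop := (0 < θ ∧ θ ≤ 1 ∧ 2 / (2 + θ) < c) ∨ (999 / 1000 < θ ∧ θ ≤ 1 ∧ c = 9 / 16)

theorem Par.pos {θ c : ℝ} (h : Par θ c) : 0 < θ ∧ θ ≤ 1 := by
  rcases h with h | h
  · exact ⟨h.1, h.2.1⟩
  · exact ⟨by linarith [h.1], h.2.1⟩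

theorem prop {θ c : ℝ} (h : Par θ c) : ∃ κ T0 : ℝ, 0 < κ ∧ ∀ T t0 H : ℝ, T0 ≤ T → T ≤ t0 →
    t0 + H ≤ 2 * T → T ^ θ ≤ H → κ * H * Real.log T ≤ ((SS c T t0 H).ncard : ℝ) := by
  rcases h with h | h
  · exact Pool.Agent.W192.PP.pos_prop θ c h.1 h.2.1 h.2.2
  · rw [h.2.2]
    exact Pool.Agent.TH299.PG.pos_prop2 θ h.1

theorem SS_finite (c T t0 H : ℝ) : (SS c T t0 H).Finite := by
  refine (Pool.Agent.W192.PP.gaps_finite (fun _ => True) (t0 + H)).subset ?_
  rintro n ⟨h1, _, h3, _⟩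
  exact ⟨h1, trivial, h3⟩

/-- the set of the small gaps is dense in an interval of indices -/
theorem dense {θ c : ℝ} (h : Par θ c) : ∃ δ : ℝ, 0 < δ ∧ ∃ C : ℝ, 1 ≤ C ∧ ∀ X₀ : ℕ, ∃ T0 : ℝ, 4 ≤ T0 ∧
    ∀ T t0 H : ℝ, T0 ≤ T → T ≤ t0 → t0 + H ≤ 2 * T → T ^ θ ≤ H → 1 ≤ H ∧ 1 ≤ Real.log T ∧
    ∃ X A : ℕ, X₀ ≤ X ∧ H * Real.log T ≤ X ∧ (X : ℝ) ≤ C * H * Real.log T ∧ (X : ℝ) ≤ T ^ 3 ∧
      (SS_finite c T t0 H).toFinset ⊆ Finset.Ioc A (A + X) ∧
      δ * X ≤ ((SS_finite c T t0 H).toFinset.card : ℝ) := by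
  obtain ⟨κ, T1, hκ, hprop⟩ := prop h
  obtain ⟨hθ, hθ1⟩ := h.pos
  obtain ⟨C, hC, hNZ⟩ := NZ_short
  refine ⟨κ / (3 * C), by positivity, 3 * C, by linarith, fun X₀ => ?_⟩
  have ev1 : ∀ᶠ T : ℝ in atTop, (X₀ : ℝ) + 1 ≤ T ^ θ := (tendsto_rpow_atTop hθ).eventually_ge_atTop _
  have ev2 : ∀ᶠ T : ℝ in atTop, 1 ≤ Real.log T := Real.tendsto_log_atTop.eventually_ge_atTop _
  obtain ⟨T2, hT2⟩ := (ev1.and ev2).exists_forall_of_atTop
  refine ⟨max (max T1 T2) (3 * C + 4), le_max_of_le_right (by linarith), fun T t0 H hT ht0 hH hTH => ?_⟩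
  have hTT1 : T1 ≤ T := ((le_max_left _ _).trans (le_max_left _ _)).trans hT
  have hTT2 : T2 ≤ T := ((le_max_right _ _).trans (le_max_left _ _)).trans hT
  have hTC : 3 * C + 4 ≤ T := (le_max_right _ _).trans hT
  obtain ⟨e1, e2⟩ := hT2 T hTT2
  have hX0 : (0 : ℝ) ≤ X₀ := Nat.cast_nonneg _
  have hH1 : 1 ≤ H := by linarith
  have hlogT : Real.log T ≤ T := (Real.log_le_sub_one_of_pos (by linarith)).trans (by linarith)
  have hHT : H ≤ T := by linarith
  refine ⟨hH1, e2, ⌈2 * C * H * Real.log T⌉₊, NZ (t0 - 1), ?_, ?_, ?_, ?_, ?_, ?_⟩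
  · have h1 : (X₀ : ℝ) ≤ ⌈2 * C * H * Real.log T⌉₊ := by
      refine le_trans ?_ (Nat.le_ceil _)
      have h2 : H * 1 ≤ H * Real.log T := mul_le_mul_of_nonneg_left e2 (by linarith)
      have h3 : 0 ≤ H * Real.log T := by positivity
      nlinarith
    exact_mod_cast h1
  · refine le_trans ?_ (Nat.le_ceil _)
    have h3 : 0 ≤ H * Real.log T := by positivity
    nlinarith
  · have h1 := (Nat.ceil_lt_add_one (a := 2 * C * H * Real.log T) (by positivity)).le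
    have h2 : 1 ≤ C * H * Real.log T := by
      have h3 : 1 ≤ C * H := one_le_mul_of_one_le_of_one_le hC hH1
      exact one_le_mul_of_one_le_of_one_le h3 e2
    linarith
  · have h1 := (Nat.ceil_lt_add_one (a := 2 * C * H * Real.log T) (by positivity)).le
    have h2 : 2 * C * H * Real.log T + 1 ≤ T ^ 3 := by
      have h0 : 0 ≤ Real.log T := by linarith
      have hT0' : 0 ≤ T := by linarith
      have h3 : 2 * C * H * Real.log T ≤ (2 * C) * T * T :=
        mul_le_mul (mul_le_mul_of_nonneg_left hHT (by linarith)) hlogT h0 (by positivity)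
      have h4 : 1 ≤ T * T := by nlinarith
      calc 2 * C * H * Real.log T + 1 ≤ 2 * C * T * T + T * T := by linarith
        _ = (2 * C + 1) * (T * T) := by ring
        _ ≤ T * (T * T) := mul_le_mul_of_nonneg_right (by linarith) (by positivity)
        _ = T ^ 3 := by ring
    linarith
  · intro n hn
    rw [Set.Finite.mem_toFinset] at hn
    obtain ⟨hn1, hn2, hn3, -⟩ := hn
    rw [Finset.mem_Ioc]
    constructor
    · by_contra hcon
      push Not at hcon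
      have h1 := (SG.ord_le_iff hn1 (t0 - 1)).2 hcon
      linarith
    · have h1 := (SG.ord_le_iff (by omega : 1 ≤ n + 1) (t0 + H)).1 hn3
      have h2 := hNZ T (by linarith) (t0 - 1) (t0 + H) (by linarith) (by linarith) hH
      have h3 : (n : ℝ) ≤ NZ (t0 - 1) + 2 * C * H * Real.log T := by
        have h4 : ((n + 1 : ℕ) : ℝ) ≤ NZ (t0 + H) := by exact_mod_cast h1
        push_cast at h4
        have h5 : C * (t0 + H - (t0 - 1)) * Real.log T ≤ 2 * C * H * Real.log T := by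
          have : C * (t0 + H - (t0 - 1)) ≤ 2 * C * H := by nlinarith
          exact mul_le_mul_of_nonneg_right this (by linarith)
        linarith
      have h6 : (n : ℝ) ≤ ((NZ (t0 - 1) + ⌈2 * C * H * Real.log T⌉₊ : ℕ) : ℝ) := by
        push_cast
        linarith [Nat.le_ceil (2 * C * H * Real.log T)]
      exact_mod_cast h6
  · have h1 := hprop T t0 H hTT1 ht0 hH hTH
    rw [Set.ncard_eq_toFinset_card _ (SS_finite c T t0 H)] at h1
    refine le_trans ?_ h1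
    have h2 := (Nat.ceil_lt_add_one (a := 2 * C * H * Real.log T) (by positivity)).le
    have h3 : 1 ≤ C * H * Real.log T := by
      have h3 : 1 ≤ C * H := one_le_mul_of_one_le_of_one_le hC hH1
      exact one_le_mul_of_one_le_of_one_le h3 e2
    have h4 : ((⌈2 * C * H * Real.log T⌉₊ : ℕ) : ℝ) ≤ 3 * C * (H * Real.log T) := by linarith
    calc κ / (3 * C) * ((⌈2 * C * H * Real.log T⌉₊ : ℕ) : ℝ) ≤ κ / (3 * C) * (3 * C * (H * Real.log T)) :=
          mul_le_mul_of_nonneg_left h4 (by positivity)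
      _ = κ * H * Real.log T := by field_simp

/-- **progressions of small gaps** -/
theorem progressions {θ c : ℝ} (h : Par θ c) (k : ℕ) (hk : 1 ≤ k) : ∃ c' : ℝ, 0 < c' ∧ ∃ B : ℕ, ∃ T0 : ℝ,
    ∀ T t0 H : ℝ, T0 ≤ T → T ≤ t0 → t0 + H ≤ 2 * T → T ^ θ ≤ H → ∀ D : ℕ, Real.log T ^ B ≤ D →
      (D : ℝ) ≤ H * Real.log T → c' * (H * Real.log T) * D ≤
        ({p : ℕ × ℕ | 1 ≤ p.2 ∧ p.2 ≤ D ∧ ∀ j < k, p.1 + j * p.2 ∈ SS c T t0 H}.ncard : ℝ) := by
  obtain ⟨δ, hδ, C, hC, hd⟩ := dense h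
  obtain ⟨c1, hc1, B, X₀, hsz⟩ := sz k hk δ hδ
  obtain ⟨T0, hT0, hdense⟩ := hd (max X₀ 1)
  refine ⟨c1, hc1, 2 * B, max T0 (Real.exp 9), fun T t0 H hT ht0 hH hTH D hD hDH => ?_⟩
  have hTe : Real.exp 9 ≤ T := (le_max_right _ _).trans hT
  obtain ⟨hH1, hlog, X, A, hX, hX1, hX2, hX3, hsub, hcard⟩ :=
    hdense T t0 H ((le_max_left _ _).trans hT) ht0 hH hTH
  have hXX₀ : X₀ ≤ X := (le_max_left _ _).trans hX
  have hX1' : 1 ≤ X := (le_max_right _ _).trans hX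
  have hlog9 : 9 ≤ Real.log T := by
    rw [Real.le_log_iff_exp_le (by linarith [Real.exp_pos (9 : ℝ)])]
    exact hTe
  have hDX : D ≤ X := by
    have : (D : ℝ) ≤ X := hDH.trans hX1
    exact_mod_cast this
  have hXr : (1 : ℝ) ≤ X := by exact_mod_cast hX1'
  have hT1 : 4 ≤ T := hT0.trans ((le_max_left _ _).trans hT)
  have hlogX : Real.log X ^ B ≤ D := by
    have h1 : Real.log X ≤ 3 * Real.log T := by
      have := Real.log_le_log (by linarith) hX3
      rw [Real.log_pow] at this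
      exact_mod_cast this
    have h2 : 3 * Real.log T ≤ Real.log T ^ 2 := by nlinarith
    calc Real.log X ^ B ≤ (Real.log T ^ 2) ^ B :=
          pow_le_pow_left₀ (Real.log_nonneg hXr) (h1.trans h2) B
      _ = Real.log T ^ (2 * B) := by rw [← pow_mul]
      _ ≤ D := hD
  have h1 := hsz X A D hXX₀ hlogX hDX _ hsub hcard
  have h2 : c1 * (H * Real.log T) * D ≤ c1 * X * D := by gcongr
  refine h2.trans (h1.trans ?_)
  have hfin : {p : ℕ × ℕ | 1 ≤ p.2 ∧ p.2 ≤ D ∧ ∀ j < k, p.1 + j * p.2 ∈ SS c T t0 H}.Finite := by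
    refine ((SS_finite c T t0 H).prod (Set.finite_Icc 1 D)).subset ?_
    rintro ⟨n, d⟩ ⟨p1, p2, p3⟩
    have := p3 0 (by omega)
    simp only [zero_mul, add_zero] at this
    exact ⟨this, p1, p2⟩
  have hsub2 : ((APs k D (SS_finite c T t0 H).toFinset : Finset (ℕ × ℕ)) : Set (ℕ × ℕ)) ⊆
      {p : ℕ × ℕ | 1 ≤ p.2 ∧ p.2 ≤ D ∧ ∀ j < k, p.1 + j * p.2 ∈ SS c T t0 H} := by
    intro p hp
    rw [Finset.mem_coe] at hp
    unfold APs at hp
    rw [Finset.mem_filter, Finset.mem_product, Finset.mem_Icc] at hp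
    refine ⟨hp.1.2.1, hp.1.2.2, fun j hj => ?_⟩
    exact (Set.Finite.mem_toFinset _).1 (hp.2 j hj)
  have h3 := Set.ncard_le_ncard hsub2 hfin
  rw [Set.ncard_coe_finset] at h3
  exact_mod_cast h3

/-- **recurrence of small gaps** -/
theorem recurrence {θ c : ℝ} (h : Par θ c) : ∃ c' : ℝ, 0 < c' ∧ ∃ M : ℕ, ∃ T0 : ℝ,
    ∀ T t0 H : ℝ, T0 ≤ T → T ≤ t0 → t0 + H ≤ 2 * T → T ^ θ ≤ H → ∀ E : Finset ℕ, M ≤ E.card →
      (∀ e ∈ E, (e : ℝ) ≤ H * Real.log T) → ∃ e ∈ E, ∃ e' ∈ E, e < e' ∧ c' * (H * Real.log T) ≤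
        ({n : ℕ | n ∈ SS c T t0 H ∧ n + (e' - e) ∈ SS c T t0 H}.ncard : ℝ) := by
  obtain ⟨δ, hδ, C, hC, hd⟩ := dense h
  obtain ⟨T0, hT0, hdense⟩ := hd 1
  set M : ℕ := ⌈4 / δ⌉₊ with hM
  have hMδ : 4 ≤ δ * M := by
    have h1 : 4 / δ ≤ M := Nat.le_ceil _
    rw [div_le_iff₀ hδ] at h1
    linarith
  refine ⟨δ ^ 2 / 8, by positivity, M, T0, fun T t0 H hT ht0 hH hTH E hE hEX => ?_⟩
  obtain ⟨hH1, hlog, X, A, hX, hX1, hX2, hX3, hsub, hcard⟩ := hdense T t0 H hT ht0 hH hTH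
  obtain ⟨E', hE', hE'c⟩ := Finset.exists_subset_card_eq hE
  obtain ⟨e, he, e', he', hlt, hle⟩ := recur δ hδ M hMδ X A _ hsub hcard E' hE'c (fun e he => by
    have : (e : ℝ) ≤ X := (hEX e (hE' he)).trans hX1
    exact_mod_cast this) hX
  refine ⟨e, hE' he, e', hE' he', hlt, ?_⟩
  have h2 : δ ^ 2 / 8 * (H * Real.log T) ≤ δ ^ 2 / 8 * X := by gcongr
  refine h2.trans (hle.trans ?_)
  have hsub2 : (((SS_finite c T t0 H).toFinset.filter
      (fun n => n + (e' - e) ∈ (SS_finite c T t0 H).toFinset) : Finset ℕ) : Set ℕ) ⊆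
      {n : ℕ | n ∈ SS c T t0 H ∧ n + (e' - e) ∈ SS c T t0 H} := by
    intro n hn
    rw [Finset.mem_coe, Finset.mem_filter, Set.Finite.mem_toFinset, Set.Finite.mem_toFinset] at hn
    exact hn
  have h3 := Set.ncard_le_ncard hsub2 ((SS_finite c T t0 H).subset fun n hn => hn.1)
  rw [Set.ncard_coe_finset] at h3
  exact_mod_cast h3

end Pool.Agent.Q34.SGA
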